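import Pool.Agent.Y644.JW.Stm

/-!
# The closure argument for spanning trees with bounded degrees (Win's theorem)
-/

set_option autoImplicit false

namespace Pool.Agent.Y644.JW

open scoped Classical

variable {V : Type}

/-- `T` without the edges that meet `S` -/
def av (T : SimpleGraph V) (S : Finset V) : SimpleGraph V where
  Adj a b := T.Adj a b ∧ a ∉ S ∧ b ∉ S
  symm := ⟨fun _ _ h => ⟨h.1.symm, h.2.2, h.2.1⟩⟩
  loopless := ⟨fun _ h => T.loopless.irrefl _ h.1⟩

theorem av_adj {T : SimpleGraph V} {S : Finset V} {a b : V} :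
    (av T S).Adj a b ↔ T.Adj a b ∧ a ∉ S ∧ b ∉ S := Iff.rfl

theorem av_mono {T : SimpleGraph V} {S S' : Finset V} (h : S' ⊆ S) : av T S ≤ av T S' :=
  fun _ _ hab => ⟨hab.1, fun ha => hab.2.1 (h ha), fun hb => hab.2.2 (h hb)⟩

theorem av_le (T : SimpleGraph V) (S : Finset V) : av T S ≤ T := fun _ _ h => h.1

/-- walks can be translated edge by edge -/
theorem reach_of {H K : SimpleGraph V} (h : ∀ a b, H.Adj a b → K.Reachable a b) {a b : V}
    (hab : H.Reachable a b) : K.Reachable a b := by
  obtain ⟨p⟩ := hab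
  induction p with
  | nil => exact SimpleGraph.Reachable.refl _
  | cons e _ ih => exact (h _ _ e).trans ih

/-- walks starting in a set which is closed in `H` -/
theorem reach_of_closed {H K : SimpleGraph V} {D : V → Prop}
    (hc : ∀ a b, D a → H.Adj a b → D b)
    (h : ∀ a b, D a → H.Adj a b → K.Adj a b) {a b : V} (ha : D a)
    (hab : H.Reachable a b) : K.Reachable a b := by
  obtain ⟨p⟩ := hab
  induction p with
  | nil => exact SimpleGraph.Reachable.refl _
  | cons e _ ih => exact (h _ _ ha e).reachable.trans (ih (hc _ _ ha e))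

theorem not_mem_of_reach {T : SimpleGraph V} {S : Finset V} {a b : V} (ha : a ∉ S)
    (h : (av T S).Reachable a b) : b ∉ S := by
  obtain ⟨p⟩ := h
  induction p with
  | nil => exact ha
  | cons e _ ih => exact ih e.2.2

/-- the graph of the edges of `H` inside the set `P`, without the edge `xw` -/
def pw (H : SimpleGraph V) (P : V → Prop) (x w : V) : SimpleGraph V where
  Adj a b := H.Adj a b ∧ P a ∧ P b ∧ s(a, b) ≠ s(x, w)
  symm := ⟨fun _ _ h => ⟨h.1.symm, h.2.2.1, h.2.1, by rw [Sym2.eq_swap]; exact h.2.2.2⟩⟩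
  loopless := ⟨fun _ h => H.loopless.irrefl _ h.1⟩

theorem path_lemma {H : SimpleGraph V} {u v : V} (p : H.Walk u v) (hp : p.IsPath) {w : V}
    (hw : w ∈ p.support) (hwu : w ≠ u) : ∃ x, x ∈ p.support ∧ H.Adj x w ∧
      (pw H (· ∈ p.support) x w).Reachable u x ∧ (pw H (· ∈ p.support) x w).Reachable w v := by
  induction p with
  | nil =>
    simp only [SimpleGraph.Walk.support_nil, List.mem_singleton] at hw
    exact absurd hw hwu
  | @cons u u' v e p ih =>
    rw [SimpleGraph.Walk.cons_isPath_iff] at hp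
    obtain ⟨hp1, hp2⟩ := hp
    have hw' : w ∈ p.support := by
      rw [SimpleGraph.Walk.support_cons, List.mem_cons] at hw
      exact hw.resolve_left hwu
    by_cases hwu' : w = u'
    · subst hwu'
      refine ⟨u, by simp, e, SimpleGraph.Reachable.refl _, ?_⟩
      -- follow `p`
      have key : ∀ {a b : V} (q : H.Walk a b), (∀ z ∈ q.support, z ∈ p.support) →
          (pw H (· ∈ (SimpleGraph.Walk.cons e p).support) u w).Reachable a b := by
        intro a b q
        induction q with
        | nil => intro _; exact SimpleGraph.Reachable.refl _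
        | @cons a a' b f q ihq =>
          intro hq
          have ha : a ∈ p.support := hq a (by simp)
          have ha' : a' ∈ p.support := hq a' (by simp)
          refine SimpleGraph.Reachable.trans (SimpleGraph.Adj.reachable ?_)
            (ihq fun z hz => hq z (by
              rw [SimpleGraph.Walk.support_cons, List.mem_cons]; exact Or.inr hz))
          refine ⟨f, ?_, ?_, ?_⟩
          · show a ∈ (SimpleGraph.Walk.cons e p).support
            rw [SimpleGraph.Walk.support_cons, List.mem_cons]; exact Or.inr ha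
          · show a' ∈ (SimpleGraph.Walk.cons e p).support
            rw [SimpleGraph.Walk.support_cons, List.mem_cons]; exact Or.inr ha'
          · intro h
            have : u ∈ s(a, a') := by rw [h]; simp
            rw [Sym2.mem_iff] at this
            rcases this with rfl | rfl
            · exact hp2 ha
            · exact hp2 ha'
      exact key p (fun z hz => hz)
    · obtain ⟨x, hx1, hx2, hx3, hx4⟩ := ih hp1 hw' hwu'
      have hle : pw H (· ∈ p.support) x w ≤ pw H (· ∈ (SimpleGraph.Walk.cons e p).support) x w := by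
        intro a b hab
        refine ⟨hab.1, ?_, ?_, hab.2.2.2⟩
        · show a ∈ (SimpleGraph.Walk.cons e p).support
          rw [SimpleGraph.Walk.support_cons, List.mem_cons]; exact Or.inr hab.2.1
        · show b ∈ (SimpleGraph.Walk.cons e p).support
          rw [SimpleGraph.Walk.support_cons, List.mem_cons]; exact Or.inr hab.2.2.1
      refine ⟨x, ?_, hx2, ?_, hx4.mono hle⟩
      · rw [SimpleGraph.Walk.support_cons, List.mem_cons]; exact Or.inr hx1
      · refine SimpleGraph.Reachable.trans (SimpleGraph.Adj.reachable ?_) (hx3.mono hle)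
        refine ⟨e, ?_, ?_, ?_⟩
        · show u ∈ (SimpleGraph.Walk.cons e p).support
          simp
        · show u' ∈ (SimpleGraph.Walk.cons e p).support
          simp
        · intro h
          have : u ∈ s(x, w) := by rw [← h]; simp
          rw [Sym2.mem_iff] at this
          rcases this with rfl | rfl
          · exact hp2 hx1
          · exact hp2 hw'

variable [Fintype V]

theorem dg_le {H K : SimpleGraph V} {v : V} (h : ∀ b, H.Adj v b → K.Adj v b) : dg H v ≤ dg K v :=
  Set.ncard_le_ncard (fun b hb => h b hb) (Set.toFinite _)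

theorem dg_congr {H K : SimpleGraph V} {v : V} (h : ∀ b, H.Adj v b ↔ K.Adj v b) :
    dg H v = dg K v :=
  le_antisymm (dg_le fun b => (h b).1) (dg_le fun b => (h b).2)

theorem dg_lt {H K : SimpleGraph V} {v x : V} (h : ∀ b, H.Adj v b → K.Adj v b)
    (hx : K.Adj v x) (hx' : ¬ H.Adj v x) : dg H v < dg K v := by
  refine Set.ncard_lt_ncard ?_ (Set.toFinite _)
  refine ⟨fun b hb => h b hb, fun h' => hx' (h' hx)⟩

theorem dg_succ {H K : SimpleGraph V} {v x : V} (h : ∀ b, K.Adj v b → H.Adj v b ∨ b = x) :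
    dg K v ≤ dg H v + 1 := by
  refine (Set.ncard_le_ncard (t := insert x (H.neighborSet v)) ?_ (Set.toFinite _)).trans
    (Set.ncard_insert_le _ _)
  intro b hb
  rcases h b hb with h | h
  · exact Or.inr h
  · exact Or.inl h

/-- total excess over the bounds -/
noncomputable def exc (b : V → ℕ) (T : SimpleGraph V) : ℕ := ∑ v, (dg T v - b v)

theorem exc_mono {b : V → ℕ} {H K : SimpleGraph V} (h : H ≤ K) : exc b H ≤ exc b K :=
  Finset.sum_le_sum fun v _ => Nat.sub_le_sub_right (dg_le fun _ hb => h hb) _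

/-- `y` can be freed inside its component of `T - S` -/
structure Fr (G T : SimpleGraph V) (b : V → ℕ) (S : Finset V) (y : V) (T' : SimpleGraph V) :
    Prop where
  le : T' ≤ G
  q1 : ∀ a ∈ S, ∀ c, T'.Adj a c ↔ T.Adj a c
  q2 : ∀ a c, a ∉ S → c ∉ S → ¬ (av T S).Reachable y a → (T'.Adj a c ↔ T.Adj a c)
  q3 : ∀ a c, (av T S).Adj a c → (av T' S).Reachable a c
  q4 : ∀ z, z ∉ S → dg T' z ≤ b z
  q5 : dg T' y < b y

theorem Fr.q3' {G T : SimpleGraph V} {b : V → ℕ} {S : Finset V} {y : V} {T' : SimpleGraph V}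
    (h : Fr G T b S y T') {a c : V} (hac : (av T' S).Adj a c) : (av T S).Reachable a c := by
  by_cases ha : (av T S).Reachable y a
  · by_cases hc : (av T S).Reachable y c
    · exact ha.symm.trans hc
    · have := (h.q2 c a hac.2.2 hac.2.1 hc).1 hac.1.symm
      exact SimpleGraph.Adj.reachable ⟨this.symm, hac.2.1, hac.2.2⟩
  · have := (h.q2 a c hac.2.1 hac.2.2 ha).1 hac.1
    exact SimpleGraph.Adj.reachable ⟨this, hac.2.1, hac.2.2⟩

/-- the property of the sets `S` -/
structure PS (G T : SimpleGraph V) (b : V → ℕ) (S : Finset V) : Prop where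
  big : ∀ v ∈ S, b v ≤ dg T v
  small : ∀ v, v ∉ S → dg T v ≤ b v
  free : ∀ y, y ∉ S → ∃ T', Fr G T b S y T'

theorem step {G T : SimpleGraph V} {b : V → ℕ} (hT : T.Connected)
    (hmin : ∀ H : SimpleGraph V, H ≤ G → H.Connected → exc b T ≤ exc b H)
    {S : Finset V} (hS : PS G T b S) {u v : V} (hu : u ∉ S) (hv : v ∉ S) (huv : G.Adj u v)
    (hn : ¬ (av T S).Reachable u v) : ∃ S', S' ⊂ S ∧ PS G T b S' := by
  obtain ⟨Tu, hTu⟩ := hS.free u hu
  obtain ⟨Tv, hTv⟩ := hS.free v hv
  -- the component of u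
  let D : V → Prop := fun a => (av T S).Reachable u a
  have hDS : ∀ a, D a → a ∉ S := fun a ha => not_mem_of_reach hu ha
  let T2 : SimpleGraph V :=
    { Adj := fun a c => (D a ∧ D c ∧ Tu.Adj a c) ∨ (¬ (D a ∧ D c) ∧ Tv.Adj a c)
      symm := ⟨by
        rintro a c (⟨h1, h2, h3⟩ | ⟨h1, h2⟩)
        · exact Or.inl ⟨h2, h1, h3.symm⟩
        · exact Or.inr ⟨fun h => h1 ⟨h.2, h.1⟩, h2.symm⟩⟩
      loopless := ⟨by
        rintro a (⟨h1, h2, h3⟩ | ⟨h1, h2⟩)
        · exact Tu.loopless.irrefl _ h3
        · exact Tv.loopless.irrefl _ h2⟩ }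
  have hT2adj : ∀ a c, T2.Adj a c ↔ (D a ∧ D c ∧ Tu.Adj a c) ∨ (¬ (D a ∧ D c) ∧ Tv.Adj a c) :=
    fun _ _ => Iff.rfl
  have F1 : T2 ≤ G := by
    rintro a c (⟨_, _, h3⟩ | ⟨_, h2⟩)
    · exact hTu.le h3
    · exact hTv.le h2
  have F2 : ∀ a ∈ S, ∀ c, T2.Adj a c ↔ T.Adj a c := by
    intro a ha c
    rw [hT2adj]
    have hDa : ¬ D a := fun h => hDS a h ha
    constructor
    · rintro (⟨h, _⟩ | ⟨_, h⟩)
      · exact absurd h hDa
      · exact (hTv.q1 a ha c).1 h
    · intro h
      exact Or.inr ⟨fun h' => hDa h'.1, (hTv.q1 a ha c).2 h⟩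
  have hDu : ∀ a c, D a → (av Tu S).Adj a c → D c := fun a c ha hac => ha.trans (hTu.q3' hac)
  have hDv : ∀ a c, ¬ D a → (av Tv S).Adj a c → ¬ D c := fun a c ha hac hc =>
    ha (hc.trans (hTv.q3' hac).symm)
  have hDv' : ∀ a c, D a → (av Tv S).Adj a c → D c := fun a c ha hac => ha.trans (hTv.q3' hac)
  have F3 : ∀ a c, (av T S).Adj a c → (av T2 S).Reachable a c := by
    intro a c hac
    by_cases ha : D a
    · exact reach_of_closed (D := D) (K := av T2 S) hDu
        (fun x y hx hxy => ⟨Or.inl ⟨hx, hDu x y hx hxy, hxy.1⟩, hxy.2.1, hxy.2.2⟩) ha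
        (hTu.q3 a c hac)
    · exact reach_of_closed (D := fun x => ¬ D x) (K := av T2 S) hDv
        (fun x y hx hxy => ⟨Or.inr ⟨fun h => hx h.1, hxy.1⟩, hxy.2.1, hxy.2.2⟩) ha
        (hTv.q3 a c hac)
  have F4 : ∀ a c, (av T2 S).Adj a c → (av T S).Reachable a c := by
    rintro a c ⟨(⟨_, _, h⟩ | ⟨_, h⟩), h2, h3⟩
    · exact hTu.q3' ⟨h, h2, h3⟩
    · exact hTv.q3' ⟨h, h2, h3⟩
  have F5a : ∀ z, D z → dg T2 z = dg Tu z := by
    intro z hz
    apply dg_congr
    intro c
    rw [hT2adj]
    by_cases hc : D c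
    · simp [hz, hc]
    · by_cases hcS : c ∈ S
      · have h1 : Tv.Adj z c ↔ Tu.Adj z c := by
          rw [Tv.adj_comm, Tu.adj_comm, hTv.q1 c hcS z, hTu.q1 c hcS z]
        simp [hc, h1]
      · have h1 : ¬ Tv.Adj z c := fun h => hc (hDv' z c hz ⟨h, hDS z hz, hcS⟩)
        have h2 : ¬ Tu.Adj z c := fun h => hc (hDu z c hz ⟨h, hDS z hz, hcS⟩)
        simp [hc, h1, h2]
  have F5b : ∀ z, ¬ D z → dg T2 z = dg Tv z := by
    intro z hz
    apply dg_congr
    intro c
    rw [hT2adj]
    simp [hz]
  have F5c : ∀ z ∈ S, dg T2 z = dg T z := fun z hz => dg_congr (F2 z hz)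
  have F5d : ∀ z, z ∉ S → dg T2 z ≤ b z := by
    intro z hz
    by_cases h : D z
    · rw [F5a z h]; exact hTu.q4 z hz
    · rw [F5b z h]; exact hTv.q4 z hz
  have F5u : dg T2 u < b u := by
    rw [F5a u (SimpleGraph.Reachable.refl _)]; exact hTu.q5
  have F5v : dg T2 v < b v := by
    rw [F5b v hn]; exact hTv.q5
  have huv' : u ≠ v := huv.ne
  -- add the edge uv
  let T3 : SimpleGraph V :=
    { Adj := fun a c => T2.Adj a c ∨ (a = u ∧ c = v) ∨ (a = v ∧ c = u)
      symm := ⟨by
        rintro a c (h | h | h)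
        · exact Or.inl h.symm
        · exact Or.inr (Or.inr ⟨h.2, h.1⟩)
        · exact Or.inr (Or.inl ⟨h.2, h.1⟩)⟩
      loopless := ⟨by
        rintro a (h | h | h)
        · exact T2.loopless.irrefl _ h
        · exact huv' (h.1.symm.trans h.2)
        · exact huv' (h.2.symm.trans h.1)⟩ }
  have hT3adj : ∀ a c, T3.Adj a c ↔ T2.Adj a c ∨ (a = u ∧ c = v) ∨ (a = v ∧ c = u) :=
    fun _ _ => Iff.rfl
  have F6 : T3 ≤ G := by
    rintro a c (h | h | h)
    · exact F1 h
    · rw [h.1, h.2]; exact huv
    · rw [h.1, h.2]; exact huv.symm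
  have F7 : ∀ z, z ∉ S → dg T3 z ≤ b z := by
    intro z hz
    by_cases hzu : z = u
    · subst hzu
      refine (dg_succ (H := T2) (x := v) ?_).trans F5u
      rintro c (h | h | h)
      · exact Or.inl h
      · exact Or.inr h.2
      · exact absurd h.1 huv'
    · by_cases hzv : z = v
      · subst hzv
        refine (dg_succ (H := T2) (x := u) ?_).trans F5v
        rintro c (h | h | h)
        · exact Or.inl h
        · exact absurd h.1 hzu
        · exact Or.inr h.2
      · refine (dg_le ?_).trans (F5d z hz)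
        rintro c (h | h | h)
        · exact h
        · exact absurd h.1 hzu
        · exact absurd h.1 hzv
  have F8 : ∀ z ∈ S, ∀ c, T3.Adj z c ↔ T.Adj z c := by
    intro z hz c
    rw [← F2 z hz c, hT3adj]
    constructor
    · rintro (h | h | h)
      · exact h
      · exact absurd (h.1 ▸ hz) hu
      · exact absurd (h.1 ▸ hz) hv
    · exact Or.inl
  -- T2 is connected
  have hT2r : ∀ a c, T.Adj a c → T2.Reachable a c := by
    intro a c hac
    by_cases ha : a ∈ S
    · exact SimpleGraph.Adj.reachable ((F2 a ha c).2 hac)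
    · by_cases hc : c ∈ S
      · exact SimpleGraph.Adj.reachable ((F2 c hc a).2 hac.symm).symm
      · exact (F3 a c ⟨hac, ha, hc⟩).mono (av_le _ _)
  have hT2c : T2.Reachable u v := reach_of hT2r (hT.preconnected u v)
  obtain ⟨p, hp⟩ := hT2c.exists_isPath
  let P : V → Prop := fun z => z ∈ p.support
  let W : Finset V := S.filter (fun w => w ∈ p.support)
  let S' : Finset V := S.filter (fun w => w ∉ p.support)
  have hS'S : S' ⊆ S := Finset.filter_subset _ _
  have hS'P : ∀ z, z ∈ p.support → z ∉ S' := fun z hz h => (Finset.mem_filter.1 h).2 hz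
  have huS' : u ∉ S' := fun h => hu (hS'S h)
  have hvS' : v ∉ S' := fun h => hv (hS'S h)
  have hinW : ∀ z, z ∉ S' → z ∈ S → z ∈ p.support := by
    intro z h1 h2
    by_contra h3
    exact h1 (Finset.mem_filter.2 ⟨h2, h3⟩)
  -- the exchanged graph for w in W
  have hex : ∀ w ∈ S, w ∈ p.support → ∃ x T4, x ∈ p.support ∧ T2.Adj x w ∧
      (∀ a c, (SimpleGraph.Adj T4 a c ↔ T3.Adj a c ∧ s(a, c) ≠ s(x, w))) ∧
      (av T4 S').Reachable x w := by
    intro w hwS hwp
    have hwu : w ≠ u := fun h => hu (h ▸ hwS)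
    have hwv : w ≠ v := fun h => hv (h ▸ hwS)
    obtain ⟨x, hx1, hx2, hx3, hx4⟩ := path_lemma p hp hwp hwu
    let T4 : SimpleGraph V :=
      { Adj := fun a c => T3.Adj a c ∧ s(a, c) ≠ s(x, w)
        symm := ⟨fun a c h => ⟨h.1.symm, by rw [Sym2.eq_swap]; exact h.2⟩⟩
        loopless := ⟨fun a h => T3.loopless.irrefl _ h.1⟩ }
    have hle : pw T2 (· ∈ p.support) x w ≤ av T4 S' := by
      intro a c h
      exact ⟨⟨Or.inl h.1, h.2.2.2⟩, hS'P a h.2.1, hS'P c h.2.2.1⟩
    refine ⟨x, T4, hx1, hx2, fun a c => Iff.rfl, ?_⟩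
    have h1 : (av T4 S').Reachable u x := hx3.mono hle
    have h2 : (av T4 S').Reachable w v := hx4.mono hle
    have h3 : (av T4 S').Adj u v := by
      refine ⟨⟨Or.inr (Or.inl ⟨rfl, rfl⟩), ?_⟩, huS', hvS'⟩
      intro h
      have : w ∈ s(u, v) := by rw [h]; simp
      rw [Sym2.mem_iff] at this
      rcases this with h | h
      · exact hwu h
      · exact hwv h
    exact h1.symm.trans (h3.reachable.trans h2.symm)
  -- degrees in T4
  have hdeg : ∀ w ∈ S, w ∈ p.support → ∀ x T4, x ∈ p.support → T2.Adj x w →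
      (∀ a c, (SimpleGraph.Adj T4 a c ↔ T3.Adj a c ∧ s(a, c) ≠ s(x, w))) →
      (∀ z, dg T4 z ≤ dg T3 z) ∧ dg T4 w < dg T3 w := by
    intro w hwS hwp x T4 hx1 hx2 hT4
    refine ⟨fun z => dg_le fun c h => ((hT4 z c).1 h).1, ?_⟩
    refine dg_lt (x := x) (fun c h => ((hT4 w c).1 h).1) (Or.inl hx2.symm) ?_
    intro h
    exact ((hT4 w x).1 h).2 Sym2.eq_swap
  -- vertices of W are tight
  have htight : ∀ w ∈ S, w ∈ p.support → dg T w ≤ b w := by
    intro w hwS hwp
    by_contra hlt
    rw [not_le] at hlt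
    obtain ⟨x, T4, hx1, hx2, hT4, hr⟩ := hex w hwS hwp
    obtain ⟨hd1, hd2⟩ := hdeg w hwS hwp x T4 hx1 hx2 hT4
    have hle : T4 ≤ G := fun a c h => F6 ((hT4 a c).1 h).1
    have hr' : T4.Reachable x w := hr.mono (av_le _ _)
    have hconn : T4.Connected := by
      have := hT.nonempty
      refine ⟨fun a c => ?_⟩
      refine reach_of ?_ (hT.preconnected a c)
      intro a c hac
      refine reach_of ?_ (hT2r a c hac)
      intro a c hac
      by_cases he : s(a, c) = s(x, w)
      · rw [Sym2.eq_iff] at he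
        rcases he with ⟨rfl, rfl⟩ | ⟨rfl, rfl⟩
        · exact hr'
        · exact hr'.symm
      · exact SimpleGraph.Adj.reachable ((hT4 a c).2 ⟨Or.inl hac, he⟩)
    have h1 := hmin T4 hle hconn
    have h2 : exc b T4 < exc b T := by
      unfold exc
      refine Finset.sum_lt_sum (fun z _ => ?_) ⟨w, Finset.mem_univ _, ?_⟩
      · by_cases hz : z ∈ S
        · have : dg T3 z = dg T z := dg_congr (F8 z hz)
          have := hd1 z
          omega
        · have := F7 z hz
          have := hd1 z
          omega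
      · have : dg T3 w = dg T w := dg_congr (F8 w hwS)
        omega
    omega
  -- T2-edges avoiding S' stay in components of T - S'
  have F9 : ∀ a c, (av T2 S').Adj a c → (av T S').Reachable a c := by
    intro a c hac
    by_cases ha : a ∈ S
    · exact SimpleGraph.Adj.reachable ⟨(F2 a ha c).1 hac.1, hac.2.1, hac.2.2⟩
    · by_cases hc : c ∈ S
      · exact SimpleGraph.Adj.reachable ⟨((F2 c hc a).1 hac.1.symm).symm, hac.2.1, hac.2.2⟩
      · exact (F4 a c ⟨hac.1, ha, hc⟩).mono (av_mono hS'S)
  have F10 : ∀ {a c : V} (q : T2.Walk a c), (∀ z ∈ q.support, z ∈ p.support) →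
      (av T S').Reachable a c := by
    intro a c q
    induction q with
    | nil => intro _; exact SimpleGraph.Reachable.refl _
    | @cons a a' c f q ih =>
      intro hq
      refine (F9 a a' ⟨f, hS'P a (hq a (by simp)), hS'P a' (hq a' (by simp))⟩).trans
        (ih fun z hz => hq z ?_)
      rw [SimpleGraph.Walk.support_cons, List.mem_cons]; exact Or.inr hz
  have F11 : ∀ z, z ∈ p.support → (av T S').Reachable u z := by
    intro z hz
    refine F10 (p.takeUntil z hz) ?_
    intro y hy
    exact p.support_takeUntil_subset_support hz hy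
  refine ⟨S', ?_, ?_, ?_, ?_⟩
  · -- proper subset
    refine ⟨hS'S, fun hsub => hn ?_⟩
    have hnone : ∀ z, z ∈ p.support → z ∉ S := fun z hz h => hS'P z hz (hsub h)
    have key : ∀ {a c : V} (q : T2.Walk a c), (∀ z ∈ q.support, z ∉ S) →
        (av T2 S).Reachable a c := by
      intro a c q
      induction q with
      | nil => intro _; exact SimpleGraph.Reachable.refl _
      | @cons a a' c f q ih =>
        intro hq
        refine SimpleGraph.Reachable.trans (SimpleGraph.Adj.reachable
          ⟨f, hq a (by simp), hq a' (by simp)⟩) (ih fun z hz => hq z ?_)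
        rw [SimpleGraph.Walk.support_cons, List.mem_cons]; exact Or.inr hz
    exact reach_of F4 (key p hnone)
  · exact fun z hz => hS.big z (hS'S hz)
  · intro z hz
    by_cases h : z ∈ S
    · exact htight z h (hinW z hz h)
    · exact hS.small z h
  · intro y hy
    by_cases hyS : y ∈ S
    · -- y is freed by the exchange
      have hyp := hinW y hy hyS
      obtain ⟨x, T4, hx1, hx2, hT4, hr⟩ := hex y hyS hyp
      obtain ⟨hd1, hd2⟩ := hdeg y hyS hyp x T4 hx1 hx2 hT4
      have hRu : (av T S').Reachable y u := (F11 y hyp).symm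
      have hRp : ∀ z, z ∈ p.support → (av T S').Reachable y z := fun z hz => hRu.trans (F11 z hz)
      have hRv : (av T S').Reachable y v := hRp v (by simp)
      have hRD : ∀ a, D a → (av T S').Reachable y a := fun a ha =>
        hRu.trans (SimpleGraph.Reachable.mono (av_mono hS'S) ha)
      have hRDv : ∀ a, (av T S).Reachable v a → (av T S').Reachable y a := fun a ha =>
        hRv.trans (ha.mono (av_mono hS'S))
      refine ⟨T4, fun a c h => F6 ((hT4 a c).1 h).1, ?_, ?_, ?_, ?_, ?_⟩
      · intro a ha c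
        rw [hT4, F8 a (hS'S ha) c]
        refine ⟨fun h => h.1, fun h => ⟨h, fun he => ?_⟩⟩
        have : a ∈ s(x, y) := by rw [← he]; simp
        rw [Sym2.mem_iff] at this
        rcases this with rfl | rfl
        · exact hS'P a hx1 ha
        · exact hS'P a hyp ha
      · intro a c ha hc hna
        have hapy : a ∉ p.support := fun h => hna (hRp a h)
        have hau : a ≠ u := fun h => hna (h ▸ hRu)
        have hav : a ≠ v := fun h => hna (h ▸ hRv)
        have h1 : T4.Adj a c ↔ T3.Adj a c := by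
          rw [hT4]
          refine ⟨fun h => h.1, fun h => ⟨h, fun he => ?_⟩⟩
          have : a ∈ s(x, y) := by rw [← he]; simp
          rw [Sym2.mem_iff] at this
          rcases this with rfl | rfl
          · exact hapy hx1
          · exact hapy hyp
        have h2 : T3.Adj a c ↔ T2.Adj a c := by
          rw [hT3adj]
          simp [hau, hav]
        have hDa : ¬ D a := fun h => hna (hRD a h)
        have h3 : T2.Adj a c ↔ Tv.Adj a c := by
          rw [hT2adj]
          simp [hDa]
        rw [h1, h2, h3]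
        by_cases haS : a ∈ S
        · exact hTv.q1 a haS c
        · by_cases hcS : c ∈ S
          · rw [Tv.adj_comm, T.adj_comm]
            exact hTv.q1 c hcS a
          · exact hTv.q2 a c haS hcS (fun h => hna (hRDv a h))
      · intro a c hac
        have h1 : (av T2 S').Reachable a c := by
          by_cases haS : a ∈ S
          · exact SimpleGraph.Adj.reachable ⟨(F2 a haS c).2 hac.1, hac.2.1, hac.2.2⟩
          · by_cases hcS : c ∈ S
            · exact SimpleGraph.Adj.reachable
                ⟨((F2 c hcS a).2 hac.1.symm).symm, hac.2.1, hac.2.2⟩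
            · exact (F3 a c ⟨hac.1, haS, hcS⟩).mono (av_mono hS'S)
        refine reach_of ?_ h1
        intro a c hac
        by_cases he : s(a, c) = s(x, y)
        · rw [Sym2.eq_iff] at he
          rcases he with ⟨rfl, rfl⟩ | ⟨rfl, rfl⟩
          · exact hr
          · exact hr.symm
        · exact SimpleGraph.Adj.reachable ⟨(hT4 a c).2 ⟨Or.inl hac.1, he⟩, hac.2.1, hac.2.2⟩
      · intro z hz
        by_cases hzS : z ∈ S
        · have h1 : dg T3 z = dg T z := dg_congr (F8 z hzS)
          have h2 := htight z hzS (hinW z hz hzS)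
          have h3 := hd1 z
          omega
        · exact (hd1 z).trans (F7 z hzS)
      · have h1 : dg T3 y = dg T y := dg_congr (F8 y hyS)
        have h2 := htight y hyS hyp
        omega
    · -- y was free before
      obtain ⟨T', hT'⟩ := hS.free y hyS
      refine ⟨T', hT'.le, fun a ha c => hT'.q1 a (hS'S ha) c, ?_, ?_, ?_, hT'.q5⟩
      · intro a c ha hc hna
        by_cases haS : a ∈ S
        · exact hT'.q1 a haS c
        · by_cases hcS : c ∈ S
          · rw [T'.adj_comm, T.adj_comm]
            exact hT'.q1 c hcS a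
          · exact hT'.q2 a c haS hcS (fun h => hna (h.mono (av_mono hS'S)))
      · intro a c hac
        by_cases haS : a ∈ S
        · exact SimpleGraph.Adj.reachable ⟨(hT'.q1 a haS c).2 hac.1, hac.2.1, hac.2.2⟩
        · by_cases hcS : c ∈ S
          · exact SimpleGraph.Adj.reachable
              ⟨((hT'.q1 c hcS a).2 hac.1.symm).symm, hac.2.1, hac.2.2⟩
          · exact (hT'.q3 a c ⟨hac.1, haS, hcS⟩).mono (av_mono hS'S)
      · intro z hz
        by_cases hzS : z ∈ S
        · rw [dg_congr (hT'.q1 z hzS)]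
          exact htight z hzS (hinW z hz hzS)
        · exact hT'.q4 z hzS

theorem clo : S_CLO := by
  intro V _ G b hG hno
  -- a spanning tree with the smallest excess
  obtain ⟨T, ⟨hTG, hTt⟩, hTmin⟩ := Set.exists_min_image {T : SimpleGraph V | T ≤ G ∧ T.IsTree}
    (exc b) (Set.toFinite _) (by
      obtain ⟨T, h1, h2⟩ := hG.exists_isTree_le
      exact ⟨T, h1, h2⟩)
  have hmin : ∀ H : SimpleGraph V, H ≤ G → H.Connected → exc b T ≤ exc b H := by
    intro H hH hc
    obtain ⟨T', h1, h2⟩ := hc.exists_isTree_le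
    exact (hTmin T' ⟨h1.trans hH, h2⟩).trans (exc_mono h1)
  have hTc : T.Connected := hTt.connected
  -- the smallest set S
  obtain ⟨S, hS, hSmin⟩ := Set.exists_min_image {S : Finset V | PS G T b S} Finset.card
    (Set.toFinite _) (by
      refine ⟨Finset.univ.filter (fun v => b v ≤ dg T v), ?_, ?_, ?_⟩
      · intro v hv
        exact (Finset.mem_filter.1 hv).2
      · intro v hv
        have : ¬ b v ≤ dg T v := fun h => hv (Finset.mem_filter.2 ⟨Finset.mem_univ _, h⟩)
        omega
      · intro y hy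
        have hlt : ∀ z, z ∉ Finset.univ.filter (fun v => b v ≤ dg T v) → dg T z < b z := by
          intro z hz
          have : ¬ b z ≤ dg T z := fun h => hz (Finset.mem_filter.2 ⟨Finset.mem_univ _, h⟩)
          omega
        exact ⟨T, hTG, fun _ _ _ => Iff.rfl, fun _ _ _ _ _ => Iff.rfl,
          fun _ _ h => h.reachable, fun z hz => (hlt z hz).le, hlt y hy⟩)
  have hS : PS G T b S := hS
  have hcl : ∀ u v, u ∉ S → v ∉ S → G.Adj u v → (av T S).Reachable u v := by
    intro u v hu hv huv
    by_contra hn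
    obtain ⟨S', h1, h2⟩ := step hTc hmin hS hu hv huv hn
    exact absurd (hSmin S' h2) (not_le.2 (Finset.card_lt_card h1))
  refine ⟨T, hTG, hTt, S, ?_, hS.big, ?_⟩
  · by_contra hne
    push Not at hne
    apply hno
    refine ⟨T, hTG, hTt, fun v => ?_⟩
    by_cases hv : v ∈ S
    · exact hne v hv
    · exact hS.small v hv
  · -- components
    unfold om
    have hmono : T.induce ((S : Set V)ᶜ) ≤ G.induce ((S : Set V)ᶜ) := fun a c h => hTG h
    have : Finite (G.induce ((S : Set V)ᶜ)).ConnectedComponent := inferInstance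
    refine Nat.card_le_card_of_injective
      (SimpleGraph.ConnectedComponent.map (SimpleGraph.Hom.ofLE hmono)) ?_
    intro C C'
    refine SimpleGraph.ConnectedComponent.ind₂ ?_ C C'
    intro a c hac
    rw [SimpleGraph.ConnectedComponent.map_mk, SimpleGraph.ConnectedComponent.map_mk,
      SimpleGraph.ConnectedComponent.eq] at hac
    rw [SimpleGraph.ConnectedComponent.eq]
    have hac' : (G.induce ((S : Set V)ᶜ)).Reachable a c := hac
    -- transfer
    have key : ∀ {x y : V} (q : (av T S).Walk x y) (hx : x ∈ ((S : Set V)ᶜ))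
        (hy : y ∈ ((S : Set V)ᶜ)), (T.induce ((S : Set V)ᶜ)).Reachable ⟨x, hx⟩ ⟨y, hy⟩ := by
      intro x y q
      induction q with
      | nil => intro _ _; exact SimpleGraph.Reachable.refl _
      | @cons x x' y f q ih =>
        intro hx hy
        have hx' : x' ∈ ((S : Set V)ᶜ) := f.2.2
        refine SimpleGraph.Reachable.trans (SimpleGraph.Adj.reachable ?_) (ih hx' hy)
        show T.Adj x x'
        exact f.1
    refine reach_of ?_ hac'
    rintro ⟨x, hx⟩ ⟨y, hy⟩ hxy
    obtain ⟨q⟩ := hcl x y hx hy hxy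
    exact key q hx hy

end Pool.Agent.Y644.JW
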