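import Pool.Agent.Y644.JW.Main
import Pool.Agent.Y371.JW.Cnt
import Pool.Agent.Y344.JW.Tut
import Pool.Agent.Y591.JW.Eul
import Pool.Agent.Y85.JW.Imp
import Pool.Agent.Y845.JW.Bal
import Pool.Agent.Y845.JW.Tou

set_option autoImplicit false

namespace Pool.Agent.Y644.JW

/-- cutting a closed walk open -/
theorem open_walk {V : Type} {G : SimpleGraph V} {v : V} (p : G.Walk v v) (hp : 0 < p.length) :
    ∃ (u w : V) (q : G.Walk u w), ∀ x, {i : Fin (q.length + 1) | q.getVert i = x}.ncard =
      {i : Fin p.length | p.getVert (i + 1) = x}.ncard := by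
  refine ⟨_, _, p.tail, fun x => ?_⟩
  have hl : p.tail.length + 1 = p.length := by
    rw [SimpleGraph.Walk.length_tail_add_one]
    intro h
    rw [SimpleGraph.Walk.nil_iff_length_eq] at h
    omega
  refine Set.ncard_congr (fun i _ => Fin.cast hl i) ?_ ?_ ?_
  · intro i hi
    have hi' : p.tail.getVert i = x := hi
    show p.getVert ((Fin.cast hl i : ℕ) + 1) = x
    rw [SimpleGraph.Walk.getVert_tail] at hi'
    simpa using hi'
  · intro i j _ _ h
    exact Fin.cast_injective hl h
  · intro j hj
    refine ⟨Fin.cast hl.symm j, ?_, by simp⟩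
    have hj' : p.getVert (j + 1) = x := hj
    show p.tail.getVert (Fin.cast hl.symm j : ℕ) = x
    rw [SimpleGraph.Walk.getVert_tail]
    simpa using hj'

end Pool.Agent.Y644.JW
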