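import Pool.Agent.Y644.JW.Clo

/-!
# Assembly: spanning closed walks in tough graphs
-/

set_option autoImplicit false

namespace Pool.Agent.Y644.JW

theorem dg_eq_degree {V : Type} [Fintype V] (G : SimpleGraph V) [DecidableRel G.Adj] (v : V) :
    dg G v = G.degree v := by
  unfold dg
  rw [← SimpleGraph.card_neighborSet_eq_degree, ← Nat.card_coe_set_eq, Nat.card_eq_fintype_card]

theorem even_sum_dg {V : Type} [Fintype V] (G : SimpleGraph V) : Even (∑ v, dg G v) := by
  classical
  have h : ∑ v, dg G v = ∑ v, G.degree v := Finset.sum_congr rfl fun v _ => dg_eq_degree G v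
  rw [h, SimpleGraph.sum_degrees_eq_twice_card_edges]
  exact even_two_mul _

/-- Win's theorem (vertex-dependent bounds) under the toughness condition -/
theorem win (hcnt : S_CNT) (V : Type) [Fintype V] (G : SimpleGraph V) (b : V → ℕ)
    (hG : G.Connected) (hb : ∀ v, 2 ≤ b v)
    (h : ∀ S : Finset V, 2 ≤ om G S → om G S ≤ ∑ v ∈ S, (b v - 2)) :
    ∃ T : SimpleGraph V, T ≤ G ∧ T.IsTree ∧ ∀ v, dg T v ≤ b v := by
  by_contra hno
  obtain ⟨T, _, hT, S, ⟨v0, hv0, hv0'⟩, hbig, hom⟩ := clo V G b hG hno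
  have h1 := hcnt V T hT S ⟨v0, hv0⟩
  have h2 : ∑ v ∈ S, (b v - 2) + 2 * S.card = ∑ v ∈ S, b v := by
    rw [mul_comm, ← smul_eq_mul, ← Finset.sum_const, ← Finset.sum_add_distrib]
    exact Finset.sum_congr rfl fun v _ => Nat.sub_add_cancel (hb v)
  have h3 : ∑ v ∈ S, b v < ∑ v ∈ S, dg T v := Finset.sum_lt_sum hbig ⟨v0, hv0, hv0'⟩
  have h4 := h S (by omega)
  omega

theorem connected_of {V : Type} [Fintype V] [Nonempty V] (G : SimpleGraph V) (g : V → ℕ)
    (h : ∀ S : Finset V, 2 ≤ om G S → om G S ≤ ∑ v ∈ S, g v) : G.Connected := by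
  have h0 : om G ∅ ≤ 1 := by
    by_contra hlt
    have := h ∅ (by omega)
    simp only [Finset.sum_empty] at this
    omega
  refine ⟨fun u v => ?_⟩
  have hu : u ∈ (((∅ : Finset V) : Set V)ᶜ) := by simp
  have hv : v ∈ (((∅ : Finset V) : Set V)ᶜ) := by simp
  have hsub : Subsingleton (G.induce (((∅ : Finset V) : Set V)ᶜ)).ConnectedComponent := by
    rw [← Finite.card_le_one_iff_subsingleton]
    exact h0
  have h1 : (G.induce (((∅ : Finset V) : Set V)ᶜ)).connectedComponentMk ⟨u, hu⟩ =
      (G.induce (((∅ : Finset V) : Set V)ᶜ)).connectedComponentMk ⟨v, hv⟩ := Subsingleton.elim _ _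
  rw [SimpleGraph.ConnectedComponent.eq] at h1
  exact h1.map (SimpleGraph.Embedding.induce _).toHom

/-- The Jackson-Wormald conjecture with vertex-dependent numbers of visits. -/
theorem jw (hcnt : S_CNT) (htut : S_TUT) (heul : S_EUL) (V : Type) [Fintype V] [DecidableEq V]
    [Nontrivial V] (G : SimpleGraph V) (k : V → ℕ) (hk : ∀ v, 1 ≤ k v)
    (h : ∀ S : Finset V, 2 ≤ om G S → om G S ≤ ∑ v ∈ S, (k v - 1)) :
    ∃ (v : V) (p : G.Walk v v), ∀ w, 1 ≤ p.support.tail.count w ∧
      p.support.tail.count w ≤ k w := by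
  have hG := connected_of G _ h
  obtain ⟨T, hTG, hT, hdeg⟩ := win hcnt V G (fun v => k v + 1) hG
    (fun v => by have := hk v; omega) (by
      intro S hS
      refine (h S hS).trans (Finset.sum_le_sum fun v _ => ?_)
      show k v - 1 ≤ k v + 1 - 2
      omega)
  have hf : ∀ v, dg T v + (2 * k v - dg T v) = 2 * k v := by
    intro v
    have h1 : dg T v ≤ k v + 1 := hdeg v
    have h2 := hk v
    omega
  refine heul V G T k (fun v => 2 * k v - dg T v) hTG hT hf ?_
  refine htut V G (fun v => 2 * k v - dg T v) hG ?_ ?_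
  · have h1 : ∑ v, dg T v + ∑ v, (2 * k v - dg T v) = 2 * ∑ v, k v := by
      rw [← Finset.sum_add_distrib, Finset.mul_sum]
      exact Finset.sum_congr rfl fun v _ => hf v
    have h2 := even_sum_dg T
    have h3 : Even (∑ v, dg T v + ∑ v, (2 * k v - dg T v)) := by
      rw [h1]; exact even_two_mul _
    rw [Nat.even_add] at h3
    exact h3.1 h2
  · intro S hS
    refine (h S hS).trans (Finset.sum_le_sum fun v _ => ?_)
    have h1 : dg T v ≤ k v + 1 := hdeg v
    show k v - 1 ≤ 2 * k v - dg T v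
    omega

/-- number of visits: the entries in the list of vertices without the starting point -/
theorem count_eq {V : Type} [DecidableEq V] {G : SimpleGraph V} {u v : V} (p : G.Walk u v) (w : V) :
    p.support.tail.count w = {i : Fin p.length | p.getVert (i + 1) = w}.ncard := by
  have hlen : p.support.tail.length = p.length := by
    rw [List.length_tail, SimpleGraph.Walk.length_support, Nat.add_sub_cancel]
  obtain ⟨vv, hvv⟩ : ∃ vv : List.Vector V p.length, vv.toList = p.support.tail :=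
    ⟨⟨p.support.tail, hlen⟩, rfl⟩
  have h1 := Fin.card_filter_univ_eq_vector_get_eq_count w vv
  rw [hvv] at h1
  rw [← h1, ← Set.ncard_coe_finset]
  congr 1
  ext i
  simp only [Finset.coe_filter, Finset.mem_univ, true_and, Set.mem_setOf_eq]
  have h3 : vv.get i = p.getVert (i + 1) := by
    rw [List.Vector.get_eq_get_toList, List.get_eq_getElem]
    simp only [hvv, Fin.val_cast]
    rw [List.getElem_tail, SimpleGraph.Walk.support_getElem_eq_getVert]
  rw [h3]

/-- The Jackson-Wormald conjecture with vertex-dependent numbers of visits. -/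
theorem jw' (hcnt : S_CNT) (htut : S_TUT) (heul : S_EUL) (V : Type) [Fintype V]
    [Nontrivial V] (G : SimpleGraph V) (k : V → ℕ) (hk : ∀ v, 1 ≤ k v)
    (h : ∀ S : Finset V, 2 ≤ om G S → om G S ≤ ∑ v ∈ S, (k v - 1)) :
    ∃ (v : V) (p : G.Walk v v), ∀ w, 1 ≤ {i : Fin p.length | p.getVert (i + 1) = w}.ncard ∧
      {i : Fin p.length | p.getVert (i + 1) = w}.ncard ≤ k w := by
  classical
  obtain ⟨v, p, hp⟩ := jw hcnt htut heul V G k hk h
  refine ⟨v, p, fun w => ?_⟩
  rw [← count_eq]
  exact hp w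

/-- Simple polytopes have closed spanning walks which visit every vertex at most twice. -/
theorem poly (hcnt : S_CNT) (htut : S_TUT) (heul : S_EUL) (hbal : S_BAL) (htou : S_TOU)
    (d : ℕ) (hd : 2 ≤ d) (S : Finset (EuclideanSpace ℝ (Fin d)))
    (hint : (interior (convexHull ℝ (S : Set (EuclideanSpace ℝ (Fin d))))).Nonempty)
    (hext : ∀ s ∈ S, s ∈ Set.extremePoints ℝ
      (convexHull ℝ (S : Set (EuclideanSpace ℝ (Fin d)))))
    (hreg : ∀ v : S, ((pg S).neighborSet v).ncard = d) :
    ∃ (v : S) (p : (pg S).Walk v v), ∀ w,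
      1 ≤ {i : Fin p.length | p.getVert (i + 1) = w}.ncard ∧
      {i : Fin p.length | p.getVert (i + 1) = w}.ncard ≤ 2 := by
  have hne : (S : Set (EuclideanSpace ℝ (Fin d))).Nonempty := by
    rw [← convexHull_nonempty_iff (𝕜 := ℝ)]
    exact hint.mono interior_subset
  obtain ⟨s0, hs0⟩ := hne
  have hnt : Nontrivial S := by
    have h1 := hreg ⟨s0, hs0⟩
    have h2 : ((pg S).neighborSet ⟨s0, hs0⟩).Nonempty := by
      rw [← Set.ncard_pos, h1]; omega
    obtain ⟨w, hw⟩ := h2
    exact ⟨⟨s0, hs0⟩, w, SimpleGraph.Adj.ne (G := pg S) hw⟩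
  refine jw' hcnt htut heul S (pg S) (fun _ => 2) (fun _ => by omega) ?_
  intro U hU
  refine (htou S (pg S) d (by omega) hreg (hbal d S hint hext) U hU).trans ?_
  simp

end Pool.Agent.Y644.JW
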