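import Mathlib

/-!
# Spanning closed walks in tough graphs (the Jackson-Wormald conjecture)

Statements of the parts.  `om G S` is the number of components of `G - S`.
-/

set_option autoImplicit false

namespace Pool.Agent.Y644.JW

/-- number of connected components of `G - S` -/
noncomputable def om {V : Type} (G : SimpleGraph V) (S : Finset V) : ℕ :=
  Nat.card (G.induce ((S : Set V)ᶜ)).ConnectedComponent

/-- degree -/
noncomputable def dg {V : Type} (G : SimpleGraph V) (v : V) : ℕ := (G.neighborSet v).ncard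

/-- CNT: removing a nonempty set of vertices from a tree leaves at least
`∑ (deg v - 2) + 2` components -/
def S_CNT : Prop := ∀ (V : Type) [Fintype V] (T : SimpleGraph V), T.IsTree →
  ∀ S : Finset V, S.Nonempty → ∑ v ∈ S, dg T v + 2 ≤ om T S + 2 * S.card

/-- CLO: if no spanning tree respects the degree bounds `b`, there are a spanning tree `T` and a set
`S` of vertices of `T`-degree at least `b`, one of them larger, such that `G - S` has no fewer
components than `T - S` -/
def S_CLO : Prop := ∀ (V : Type) [Fintype V] (G : SimpleGraph V) (b : V → ℕ), G.Connected →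
  (¬ ∃ T : SimpleGraph V, T ≤ G ∧ T.IsTree ∧ ∀ v, dg T v ≤ b v) →
  ∃ T : SimpleGraph V, T ≤ G ∧ T.IsTree ∧ ∃ S : Finset V,
    (∃ v ∈ S, b v < dg T v) ∧ (∀ v ∈ S, b v ≤ dg T v) ∧ om T S ≤ om G S

/-- TUT: a perfect matching (fixed point free involution) of the blow-up of `G` with `f v` copies
of `v` -/
def S_TUT : Prop := ∀ (V : Type) [Fintype V] (G : SimpleGraph V) (f : V → ℕ), G.Connected →
  Even (∑ v, f v) → (∀ S : Finset V, 2 ≤ om G S → om G S ≤ ∑ v ∈ S, f v) →
  ∃ μ : (Σ v : V, Fin (f v)) → (Σ v : V, Fin (f v)), (∀ x, μ (μ x) = x) ∧ (∀ x, μ x ≠ x) ∧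
    ∀ x, (μ x).1 = x.1 ∨ G.Adj x.1 (μ x).1

/-- EUL: a spanning tree together with a perfect matching of the blow-up gives a closed walk -/
def S_EUL : Prop := ∀ (V : Type) [Fintype V] [DecidableEq V] [Nontrivial V] (G T : SimpleGraph V)
  (k f : V → ℕ), T ≤ G → T.IsTree → (∀ v, dg T v + f v = 2 * k v) →
  (∃ μ : (Σ v : V, Fin (f v)) → (Σ v : V, Fin (f v)), (∀ x, μ (μ x) = x) ∧ (∀ x, μ x ≠ x) ∧
    ∀ x, (μ x).1 = x.1 ∨ G.Adj x.1 (μ x).1) →
  ∃ (v : V) (p : G.Walk v v), ∀ w, 1 ≤ p.support.tail.count w ∧ p.support.tail.count w ≤ k w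

/-- the vertex-edge graph of the convex hull of `S` (all points of `S` will be vertices) -/
noncomputable def pg {d : ℕ} (S : Finset (EuclideanSpace ℝ (Fin d))) : SimpleGraph S :=
  SimpleGraph.fromRel (fun x y : S =>
    IsExposed ℝ (convexHull ℝ (S : Set (EuclideanSpace ℝ (Fin d))))
      (segment ℝ (x : EuclideanSpace ℝ (Fin d)) (y : EuclideanSpace ℝ (Fin d))))

/-- IMP: a vertex which is not optimal for a linear functional has an improving edge -/
def S_IMP : Prop := ∀ (d : ℕ) (S : Finset (EuclideanSpace ℝ (Fin d))),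
  (∀ s ∈ S, s ∈ Set.extremePoints ℝ (convexHull ℝ (S : Set (EuclideanSpace ℝ (Fin d))))) →
  ∀ (g : EuclideanSpace ℝ (Fin d)) (v s : S), inner ℝ g (v : EuclideanSpace ℝ (Fin d)) <
    inner ℝ g (s : EuclideanSpace ℝ (Fin d)) →
  ∃ w : S, (pg S).Adj v w ∧ inner ℝ g (v : EuclideanSpace ℝ (Fin d)) <
    inner ℝ g (w : EuclideanSpace ℝ (Fin d))

/-- BAL: Balinski's theorem -/
def S_BAL : Prop := ∀ (d : ℕ) (S : Finset (EuclideanSpace ℝ (Fin d))),
  (interior (convexHull ℝ (S : Set (EuclideanSpace ℝ (Fin d))))).Nonempty →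
  (∀ s ∈ S, s ∈ Set.extremePoints ℝ (convexHull ℝ (S : Set (EuclideanSpace ℝ (Fin d))))) →
  ∀ U : Finset S, U.card < d → ((pg S).induce ((U : Set S)ᶜ)).Preconnected

/-- TOU: `d`-regular `d`-connected graphs are 1-tough -/
def S_TOU : Prop := ∀ (V : Type) [Fintype V] (G : SimpleGraph V) (d : ℕ), 1 ≤ d →
  (∀ v, dg G v = d) →
  (∀ U : Finset V, U.card < d → (G.induce ((U : Set V)ᶜ)).Preconnected) →
  ∀ S : Finset V, 2 ≤ om G S → om G S ≤ S.card

end Pool.Agent.Y644.JW
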